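import Mathlib

namespace Pool.Agent.X83.MT

open Finset

theorem upperV (c : ℕ) : ∀ M b : ℕ,
    ∑ u ∈ range (M+1), u.choose b * (c + (M - u)).choose c = (M + c + 1).choose (b + c + 1) := by
  intro M
  induction M with
  | zero =>
    intro b
    rcases b with _ | b
    · simp
    · rw [Nat.choose_eq_zero_of_lt (show 0 + c + 1 < b + 1 + c + 1 by omega)]
      simp
  | succ M ih =>
    intro b
    rw [Finset.sum_range_succ']
    simp only [Nat.add_sub_add_right, Nat.sub_zero]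
    rcases b with _ | b
    · simp only [Nat.choose_zero_right, one_mul, Nat.zero_add]
      have h := ih 0
      simp only [Nat.choose_zero_right, one_mul, Nat.zero_add] at h
      rw [h, show M + 1 + c + 1 = (M + c + 1) + 1 by ring, Nat.choose_succ_succ' (M + c + 1) c,
        show c + (M + 1) = M + c + 1 by ring]
      ring
    · have h1 := ih b
      have h2 := ih (b+1)
      rw [show M + 1 + c + 1 = (M + c + 1) + 1 by ring, show b + 1 + c + 1 = (b + c + 1) + 1 by ring,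
        Nat.choose_succ_succ' (M + c + 1), ← h1, show b + c + 1 + 1 = b + 1 + c + 1 by ring, ← h2,
        ← Finset.sum_add_distrib]
      simp only [Nat.choose_zero_succ, zero_mul, add_zero]
      refine Finset.sum_congr rfl fun u _ => ?_
      rw [Nat.choose_succ_succ' u b]; ring

theorem lowerV : ∀ B D n : ℕ,
    ((D.choose n : ℕ) : ℚ) = ∑ k ∈ range (n+1), (-1 : ℚ)^k * (B.choose k : ℚ) * ((B + D - k).choose (n - k) : ℚ) := by
  intro B
  induction B with
  | zero =>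
    intro D n
    rw [Finset.sum_range_succ']
    simp
  | succ B ih =>
    intro D n
    rcases n with _ | n
    · simp
    · rw [Finset.sum_range_succ']
      simp only [Nat.choose_succ_succ' B, Nat.cast_add, Nat.add_sub_add_right, pow_zero, Nat.choose_zero_right,
        Nat.cast_one, one_mul, mul_one, Nat.sub_zero]
      have h1 := ih (D+1) (n+1)
      rw [Finset.sum_range_succ'] at h1
      have h2 := ih D n
      simp only [Nat.add_sub_add_right, pow_zero, Nat.choose_zero_right, Nat.cast_one, one_mul, mul_one, Nat.sub_zero] at h1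
      have h3 : ∑ x ∈ range (n+1), (-1 : ℚ)^(x+1) * ((B.choose x : ℚ) + (B.choose (x+1) : ℚ)) * ((B + 1 + D - (x + 1)).choose (n - x) : ℚ)
        = - (∑ k ∈ range (n+1), (-1 : ℚ)^k * (B.choose k : ℚ) * ((B + D - k).choose (n - k) : ℚ))
          + ∑ k ∈ range (n+1), (-1 : ℚ)^(k+1) * (B.choose (k+1) : ℚ) * ((B + (D + 1) - (k + 1)).choose (n - k) : ℚ) := by
        rw [← Finset.sum_neg_distrib, ← Finset.sum_add_distrib]
        refine Finset.sum_congr rfl fun x _ => ?_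
        rw [show B + 1 + D - (x + 1) = B + D - x by omega, show B + (D + 1) - (x + 1) = B + D - x by omega]
        ring
      rw [h3, ← h2, show B + 1 + D = B + (D + 1) by ring]
      have h4 : (((D+1).choose (n+1) : ℕ) : ℚ) = (D.choose n : ℚ) + (D.choose (n+1) : ℚ) := by
        rw [Nat.choose_succ_succ' D n]; push_cast; ring
      rw [h4] at h1
      linarith

theorem termE (N t i : ℕ) (ht : t ≤ 2*N) (hi : i ≤ N) :
    ((t.choose i : ℕ) : ℚ) * ((2*N - t).choose (N - i) : ℚ)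
      = ∑ m ∈ range (N+1), (-1 : ℚ)^(m+i) * (t.choose m : ℚ) * (m.choose i : ℚ) * ((2*N - m).choose N : ℚ) := by
  rcases Nat.lt_or_ge t i with h | h
  · rw [Nat.choose_eq_zero_of_lt h]
    rw [Finset.sum_eq_zero]
    · simp
    · intro m _
      rcases Nat.lt_or_ge m i with h' | h'
      · rw [Nat.choose_eq_zero_of_lt h']; simp
      · rw [Nat.choose_eq_zero_of_lt (show t < m by omega)]; simp
  · obtain ⟨n, hn⟩ := Nat.exists_eq_add_of_le hi
    have hr : range (N+1) = range (i + (n+1)) := by rw [hn]; rfl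
    rw [hr, Finset.sum_range_add]
    rw [Finset.sum_eq_zero (s := range i), zero_add]
    · rw [lowerV (t - i) (2*N-t) (N - i), Finset.mul_sum]
      rw [show N - i + 1 = n + 1 by omega]
      refine Finset.sum_congr rfl fun k hk => ?_
      have hk' : k ≤ n := Nat.lt_succ_iff.mp (Finset.mem_range.mp hk)
      have h1 : ((t.choose (i+k) : ℕ) : ℚ) * ((i+k).choose i : ℚ) = (t.choose i : ℚ) * ((t-i).choose k : ℚ) := by
        rcases Nat.lt_or_ge t (i+k) with h' | h'
        · rw [Nat.choose_eq_zero_of_lt h', Nat.choose_eq_zero_of_lt (show t - i < k by omega)]; simp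
        · have := Nat.choose_mul (n := t) (Nat.le_add_right i k)
          rw [Nat.add_sub_cancel_left] at this
          exact_mod_cast this
      have h2 : (t - i + (2*N - t) - k).choose (N - i - k) = (2*N - (i+k)).choose N := by
        rw [show t - i + (2*N - t) - k = 2*N - (i+k) by omega]
        exact Nat.choose_symm_of_eq_add (by omega)
      rw [h2]
      have h3 : (-1 : ℚ)^(i+k+i) = (-1)^k := by
        rw [show i + k + i = k + 2*i by ring, pow_add, pow_mul]; simp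
      rw [h3]
      linear_combination (-1 : ℚ)^k * ((2*N-(i+k)).choose N : ℚ) * (- h1)
    · intro m hm
      rw [Nat.choose_eq_zero_of_lt (Finset.mem_range.mp hm)]; simp

theorem sumChoose (N m : ℕ) : ∑ i ∈ range (N+1), ((N.choose i : ℕ) : ℚ) * (m.choose i : ℚ) = ((N+m).choose N : ℚ) := by
  have h := Nat.add_choose_eq m N N
  rw [Finset.Nat.sum_antidiagonal_eq_sum_range_succ_mk] at h
  rw [show N + m = m + N by ring, h]
  push_cast
  refine Finset.sum_congr rfl fun i hi => ?_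
  have hi' : i ≤ N := Nat.lt_succ_iff.mp (Finset.mem_range.mp hi)
  rw [Nat.choose_symm hi']
  ring

theorem existE (N t : ℕ) (ht : t ≤ 2*N) :
    ∑ m ∈ range (N+1), (-1 : ℚ)^m * (t.choose m : ℚ) * (((N+m).choose N : ℚ) * ((2*N-m).choose N : ℚ))
      = ∑ i ∈ range (N+1), (-1 : ℚ)^i * (N.choose i : ℚ) * ((t.choose i : ℚ) * ((2*N-t).choose (N-i) : ℚ)) := by
  have h1 : ∀ i ∈ range (N+1), (-1 : ℚ)^i * (N.choose i : ℚ) * ((t.choose i : ℚ) * ((2*N-t).choose (N-i) : ℚ))
      = ∑ m ∈ range (N+1), (-1 : ℚ)^m * (t.choose m : ℚ) * ((2*N-m).choose N : ℚ) * ((N.choose i : ℚ) * (m.choose i : ℚ)) := by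
    intro i hi
    rw [termE N t i ht (Nat.lt_succ_iff.mp (Finset.mem_range.mp hi)), Finset.mul_sum]
    refine Finset.sum_congr rfl fun m _ => ?_
    have h3 : (-1 : ℚ)^i * (-1 : ℚ)^(m+i) = (-1)^m := by
      rw [← pow_add, show i + (m + i) = m + 2*i by ring, pow_add, pow_mul]; simp
    rw [← h3]; ring
  rw [Finset.sum_congr rfl h1, Finset.sum_comm]
  refine Finset.sum_congr rfl fun m _ => ?_
  rw [← Finset.mul_sum, sumChoose]
  ring

theorem symE (N t : ℕ) (ht : t ≤ 2*N) :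
    ∑ m ∈ range (N+1), (-1 : ℚ)^m * ((2*N-t).choose m : ℚ) * (((N+m).choose N : ℚ) * ((2*N-m).choose N : ℚ))
      = (-1)^N * ∑ m ∈ range (N+1), (-1 : ℚ)^m * (t.choose m : ℚ) * (((N+m).choose N : ℚ) * ((2*N-m).choose N : ℚ)) := by
  rw [existE N t ht, existE N (2*N-t) (by omega), ← Finset.sum_range_reflect, Finset.mul_sum]
  refine Finset.sum_congr rfl fun i hi => ?_
  have hi' : i ≤ N := Nat.lt_succ_iff.mp (Finset.mem_range.mp hi)
  rw [show N + 1 - 1 - i = N - i by omega, show 2*N - (2*N - t) = t by omega, show N - (N - i) = i by omega,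
    Nat.choose_symm hi']
  have h3 : (-1 : ℚ)^(N-i) = (-1)^N * (-1)^i := by
    rw [← pow_add]
    obtain ⟨n, hn⟩ := Nat.exists_eq_add_of_le hi'
    rw [show N - i = n by omega, show N + i = n + 2*i by omega, pow_add, pow_mul]; simp
  rw [h3]; ring

theorem kern (M P Q : ℕ) (hQ : Q ≤ M) :
    ∑ m ∈ range (M+1), ((m:ℚ)+1)*((m:ℚ)+2) * (((P+2).choose (m+2) : ℚ) * ((Q+2).choose (m+2) : ℚ))
      = ((P:ℚ)+2)*((P:ℚ)+1) * ((P+Q+2).choose Q : ℚ) := by
  have h1 : ∀ m : ℕ, ((m:ℚ)+1)*((m:ℚ)+2) * ((P+2).choose (m+2) : ℚ) = ((P:ℚ)+2)*((P:ℚ)+1) * (P.choose m : ℚ) := by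
    intro m
    have e1 := Nat.add_one_mul_choose_eq (P+1) (m+1)
    have e2 := Nat.add_one_mul_choose_eq P m
    have e1' : ((P:ℚ)+2) * ((P+1).choose (m+1) : ℚ) = ((P+2).choose (m+2) : ℚ) * ((m:ℚ)+2) := by
      have := congrArg (Nat.cast (R := ℚ)) e1
      push_cast [Nat.succ_eq_add_one] at this
      linear_combination this
    have e2' : ((P:ℚ)+1) * (P.choose m : ℚ) = ((P+1).choose (m+1) : ℚ) * ((m:ℚ)+1) := by
      have := congrArg (Nat.cast (R := ℚ)) e2
      push_cast [Nat.succ_eq_add_one] at this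
      linear_combination this
    linear_combination -((m:ℚ)+1) * e1' - ((P:ℚ)+2) * e2'
  have h2 : ∀ m ∈ range (M+1), ((m:ℚ)+1)*((m:ℚ)+2) * (((P+2).choose (m+2) : ℚ) * ((Q+2).choose (m+2) : ℚ))
      = ((P:ℚ)+2)*((P:ℚ)+1) * ((P.choose m : ℚ) * ((Q+2).choose (m+2) : ℚ)) := by
    intro m _
    rw [← mul_assoc, h1 m]; ring
  rw [Finset.sum_congr rfl h2, ← Finset.mul_sum]
  congr 1
  have hv := Nat.add_choose_eq P (Q+2) Q
  rw [Finset.Nat.sum_antidiagonal_eq_sum_range_succ_mk] at hv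
  rw [show P + Q + 2 = P + (Q + 2) by ring, hv]
  push_cast
  have hsub : range (Q+1) ⊆ range (M+1) := Finset.range_subset_range.mpr (by omega)
  rw [← Finset.sum_subset hsub]
  · refine Finset.sum_congr rfl fun m hm => ?_
    have hm' : m ≤ Q := Nat.lt_succ_iff.mp (Finset.mem_range.mp hm)
    rw [show (Q+2).choose (m+2) = (Q+2).choose (Q-m) from Nat.choose_symm_of_eq_add (by omega)]
  · intro m _ hm
    have : Q < m := by
      by_contra h
      exact hm (Finset.mem_range.mpr (by omega))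
    rw [Nat.choose_eq_zero_of_lt (show Q + 2 < m + 2 by omega)]; simp

theorem pos (M : ℕ) (y : ℕ → ℚ)
    (h : ∀ t ≤ M, y t = - ∑ u ∈ range (M+1), ((2*M+2-t-u).choose (M-u) : ℚ) * y u) :
    ∀ t ≤ M, y t = 0 := by
  have key : ∑ t ∈ range (M+1), (((M-t : ℕ):ℚ)+2)*(((M-t : ℕ):ℚ)+1) * (y t)^2
      = - ∑ m ∈ range (M+1), ((m:ℚ)+1)*((m:ℚ)+2) * (∑ t ∈ range (M+1), ((M-t+2).choose (m+2) : ℚ) * y t)^2 := by
    have h1 : ∀ t ∈ range (M+1), (((M-t : ℕ):ℚ)+2)*(((M-t : ℕ):ℚ)+1) * (y t)^2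
        = - ∑ m ∈ range (M+1), ((m:ℚ)+1)*((m:ℚ)+2) * (((M-t+2).choose (m+2) : ℚ) * y t *
            (∑ u ∈ range (M+1), ((M-u+2).choose (m+2) : ℚ) * y u)) := by
      intro t ht
      have ht' : t ≤ M := Nat.lt_succ_iff.mp (Finset.mem_range.mp ht)
      have h2 : ∀ u ∈ range (M+1), (((M-t : ℕ):ℚ)+2)*(((M-t : ℕ):ℚ)+1) * y t * (((2*M+2-t-u).choose (M-u) : ℚ) * y u)
          = ∑ m ∈ range (M+1), ((m:ℚ)+1)*((m:ℚ)+2) * (((M-t+2).choose (m+2) : ℚ) * y t * (((M-u+2).choose (m+2) : ℚ) * y u)) := by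
        intro u hu
        have hu' : u ≤ M := Nat.lt_succ_iff.mp (Finset.mem_range.mp hu)
        have hk := kern M (M-t) (M-u) (Nat.sub_le _ _)
        rw [show M - t + (M - u) + 2 = 2*M+2-t-u by omega] at hk
        calc (((M-t : ℕ):ℚ)+2)*(((M-t : ℕ):ℚ)+1) * y t * (((2*M+2-t-u).choose (M-u) : ℚ) * y u)
            = ((((M-t : ℕ):ℚ)+2)*(((M-t : ℕ):ℚ)+1) * ((2*M+2-t-u).choose (M-u) : ℚ)) * (y t * y u) := by ring
          _ = _ := by
            rw [← hk, Finset.sum_mul]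
            refine Finset.sum_congr rfl fun m _ => ?_
            ring
      have h3 : (((M-t : ℕ):ℚ)+2)*(((M-t : ℕ):ℚ)+1) * (y t)^2
          = - ∑ u ∈ range (M+1), (((M-t : ℕ):ℚ)+2)*(((M-t : ℕ):ℚ)+1) * y t * (((2*M+2-t-u).choose (M-u) : ℚ) * y u) := by
        rw [← Finset.mul_sum]
        have := h t ht'
        linear_combination (((M-t : ℕ):ℚ)+2)*(((M-t : ℕ):ℚ)+1) * y t * this
      rw [h3, Finset.sum_congr rfl h2, Finset.sum_comm]
      congr 1
      refine Finset.sum_congr rfl fun m _ => ?_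
      rw [Finset.mul_sum, Finset.mul_sum]
    rw [Finset.sum_congr rfl h1, Finset.sum_neg_distrib, Finset.sum_comm]
    congr 1
    refine Finset.sum_congr rfl fun m _ => ?_
    rw [← Finset.mul_sum, ← Finset.sum_mul]
    ring
  have hle : ∑ t ∈ range (M+1), (((M-t : ℕ):ℚ)+2)*(((M-t : ℕ):ℚ)+1) * (y t)^2 ≤ 0 := by
    rw [key]
    have : 0 ≤ ∑ m ∈ range (M+1), ((m:ℚ)+1)*((m:ℚ)+2) * (∑ t ∈ range (M+1), ((M-t+2).choose (m+2) : ℚ) * y t)^2 :=
      Finset.sum_nonneg fun m _ => by positivity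
    linarith
  have hnn : ∀ t ∈ range (M+1), 0 ≤ (((M-t : ℕ):ℚ)+2)*(((M-t : ℕ):ℚ)+1) * (y t)^2 := fun t _ => by positivity
  have hz := (Finset.sum_eq_zero_iff_of_nonneg hnn).mp (le_antisymm hle (Finset.sum_nonneg hnn))
  intro t ht
  have h1 := hz t (Finset.mem_range.mpr (by omega))
  have h2 : 0 < (((M-t : ℕ):ℚ)+2)*(((M-t : ℕ):ℚ)+1) := by positivity
  rcases mul_eq_zero.mp h1 with h3 | h3
  · exact absurd h3 h2.ne'
  · exact pow_eq_zero_iff (two_ne_zero) |>.mp h3

theorem rel (M : ℕ) (d : ℕ → ℚ) (hS : ∀ b ≤ M, d b = d (M - b)) (c : ℕ) :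
    ∑ u ∈ range (M+1), ((c + (M-u)).choose c : ℚ) * (∑ b ∈ range (M+1), (-1:ℚ)^b * (u.choose b : ℚ) * d b)
      = (-1)^M * ∑ b ∈ range (M+1), (-1:ℚ)^b * ((M+c+1).choose b : ℚ) * d b := by
  have h1 : ∑ u ∈ range (M+1), ((c + (M-u)).choose c : ℚ) * (∑ b ∈ range (M+1), (-1:ℚ)^b * (u.choose b : ℚ) * d b)
      = ∑ b ∈ range (M+1), (-1:ℚ)^b * d b * ((M+c+1).choose (b+c+1) : ℚ) := by
    simp only [Finset.mul_sum]
    rw [Finset.sum_comm]
    refine Finset.sum_congr rfl fun b _ => ?_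
    rw [← upperV c M b]
    push_cast
    rw [Finset.mul_sum]
    refine Finset.sum_congr rfl fun u _ => ?_
    ring
  rw [h1, ← Finset.sum_range_reflect, Finset.mul_sum]
  refine Finset.sum_congr rfl fun b hb => ?_
  have hb' : b ≤ M := Nat.lt_succ_iff.mp (Finset.mem_range.mp hb)
  rw [show M + 1 - 1 - b = M - b by omega, ← hS b hb',
    show (M+c+1).choose (M - b + c + 1) = (M+c+1).choose b from Nat.choose_symm_of_eq_add (by omega)]
  have h3 : (-1 : ℚ)^(M-b) = (-1)^M * (-1)^b := by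
    rw [← pow_add]
    obtain ⟨n, hn⟩ := Nat.exists_eq_add_of_le hb'
    rw [show M - b = n by omega, show M + b = n + 2*b by omega, pow_add, pow_mul]; simp
  rw [h3]; ring

theorem tri (M : ℕ) (d : ℕ → ℚ) (h : ∀ t ≤ M, ∑ b ∈ range (M+1), (-1:ℚ)^b * (t.choose b : ℚ) * d b = 0) :
    ∀ t ≤ M, d t = 0 := by
  intro t
  induction t using Nat.strong_induction_on with
  | _ t ih =>
    intro ht
    have h1 := h t ht
    rw [Finset.sum_eq_single t] at h1
    · rw [Nat.choose_self, Nat.cast_one, mul_one] at h1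
      rcases mul_eq_zero.mp h1 with h2 | h2
      · exact absurd h2 (pow_ne_zero _ (by norm_num))
      · exact h2
    · intro b hb hne
      rcases Nat.lt_or_gt_of_ne hne with h2 | h2
      · rw [ih b h2 (by omega)]; simp
      · rw [Nat.choose_eq_zero_of_lt h2]; simp
    · intro h2
      exact absurd (Finset.mem_range.mpr (by omega)) h2

theorem uniq (N : ℕ) (b : ℕ → ℚ) (h0 : b 0 = 0) (S : ∀ m ≤ N, b m = b (N - m))
    (P : ∀ t ≤ N, ∑ m ∈ range (N+1), (-1 : ℚ)^m * ((2*N-t).choose m : ℚ) * b m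
      = (-1)^N * ∑ m ∈ range (N+1), (-1 : ℚ)^m * (t.choose m : ℚ) * b m) :
    ∀ m ≤ N, b m = 0 := by
  have hN : b N = 0 := by rw [S N le_rfl, Nat.sub_self, h0]
  rcases N with _ | _ | M
  · intro m hm; rw [Nat.le_zero.mp hm]; exact h0
  · intro m hm
    interval_cases m
    · exact h0
    · exact hN
  set d : ℕ → ℚ := fun j => b (j+1) with hd
  set z : ℕ → ℚ := fun t => ∑ m ∈ range (M+3), (-1 : ℚ)^m * (t.choose m : ℚ) * b m with hz
  set y : ℕ → ℚ := fun t => ∑ j ∈ range (M+1), (-1 : ℚ)^j * (t.choose j : ℚ) * d j with hy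
  have hzt : ∀ t, z t = - ∑ j ∈ range (M+1), (-1 : ℚ)^j * (t.choose (j+1) : ℚ) * d j := by
    intro t
    simp only [hz, hd]
    rw [Finset.sum_range_succ', Finset.sum_range_succ, h0, hN, ← Finset.sum_neg_distrib]
    simp only [mul_zero, add_zero]
    refine Finset.sum_congr rfl fun j _ => ?_
    ring
  have hzy : ∀ t, z (t+1) = z t - y t := by
    intro t
    rw [hzt, hzt]
    simp only [hy]
    rw [← Finset.sum_neg_distrib, ← Finset.sum_neg_distrib, ← Finset.sum_sub_distrib]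
    refine Finset.sum_congr rfl fun j _ => ?_
    rw [Nat.choose_succ_succ' t j]; push_cast; ring
  have hP : ∀ t ≤ M + 2, z (2*(M+2) - t) = (-1)^(M+2) * z t := fun t ht => P t ht
  have hdS : ∀ j ≤ M, d j = d (M - j) := by
    intro j hj
    simp only [hd]
    rw [S (j+1) (by omega)]
    congr 1; omega
  have hyy : ∀ t ≤ M, y (2*M+3-t) = - (-1)^M * y t := by
    intro t ht
    have e1 := hzy (2*M+3-t)
    have e2 := hzy t
    have e3 := hP t (by omega)
    have e4 := hP (t+1) (by omega)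
    rw [show 2*(M+2) - t = 2*M+3-t+1 by omega] at e3
    rw [show 2*(M+2) - (t+1) = 2*M+3-t by omega] at e4
    have e5 : (-1:ℚ)^(M+2) = (-1)^M := by rw [pow_add]; norm_num
    rw [e5] at e3 e4
    linear_combination e1 - e3 + e4 + (-1)^M * e2
  have hrel : ∀ t ≤ M, y t = - ∑ u ∈ range (M+1), ((2*M+2-t-u).choose (M-u) : ℚ) * y u := by
    intro t ht
    have e1 := rel M d hdS (M+2-t)
    rw [show M + (M+2-t) + 1 = 2*M+3-t by omega] at e1
    have e2 : ∑ u ∈ range (M+1), ((2*M+2-t-u).choose (M-u) : ℚ) * y u = (-1)^M * y (2*M+3-t) := by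
      rw [← e1]
      refine Finset.sum_congr rfl fun u hu => ?_
      have hu' : u ≤ M := Nat.lt_succ_iff.mp (Finset.mem_range.mp hu)
      rw [show (2*M+2-t-u).choose (M-u) = (M+2-t+(M-u)).choose (M+2-t) from by
        rw [show 2*M+2-t-u = M+2-t+(M-u) by omega]
        exact Nat.choose_symm_of_eq_add (by omega)]
    rw [e2, hyy t ht]
    have e6 : (-1:ℚ)^M * (-1)^M = 1 := by rw [← pow_add, ← two_mul, pow_mul]; norm_num
    linear_combination (-(y t)) * e6
  have hy0 := pos M y hrel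
  have hd0 := tri M d hy0
  intro m hm
  rcases m with _ | m
  · exact h0
  · rcases Nat.lt_or_ge m (M+1) with h | h
    · exact hd0 m (by omega)
    · rw [show m + 1 = M + 1 + 1 by omega]; exact hN

/-- Natural form. -/
theorem refined_nat (N : ℕ) (a : ℕ → ℚ) (S : ∀ m ≤ N, a m = a (N - m))
    (P : ∀ t ≤ N, ∑ m ∈ range (N+1), (-1 : ℚ)^m * ((2*N-t).choose m : ℚ) * a m
      = (-1)^N * ∑ m ∈ range (N+1), (-1 : ℚ)^m * (t.choose m : ℚ) * a m) :
    ∀ m ≤ N, a m * ((2*N).choose N : ℚ) = a 0 * ((N+m).choose N : ℚ) * ((2*N-m).choose N : ℚ) := by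
  set b : ℕ → ℚ := fun m => a m * ((2*N).choose N : ℚ) - a 0 * (((N+m).choose N : ℚ) * ((2*N-m).choose N : ℚ)) with hb
  have hb0 : b 0 = 0 := by
    simp only [hb]
    simp
  have hbS : ∀ m ≤ N, b m = b (N - m) := by
    intro m hm
    simp only [hb]
    rw [S m hm, show 2*N - (N - m) = N + m by omega, show N + (N - m) = 2*N - m by omega]
    ring
  have hbP : ∀ t ≤ N, ∑ m ∈ range (N+1), (-1 : ℚ)^m * ((2*N-t).choose m : ℚ) * b m
      = (-1)^N * ∑ m ∈ range (N+1), (-1 : ℚ)^m * (t.choose m : ℚ) * b m := by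
    intro t ht
    have e : ∀ s : ℕ, ∑ m ∈ range (N+1), (-1 : ℚ)^m * (s.choose m : ℚ) * b m
        = (∑ m ∈ range (N+1), (-1 : ℚ)^m * (s.choose m : ℚ) * a m) * ((2*N).choose N : ℚ)
          - a 0 * ∑ m ∈ range (N+1), (-1 : ℚ)^m * (s.choose m : ℚ) * (((N+m).choose N : ℚ) * ((2*N-m).choose N : ℚ)) := by
      intro s
      rw [Finset.sum_mul, Finset.mul_sum, ← Finset.sum_sub_distrib]
      refine Finset.sum_congr rfl fun m _ => ?_
      simp only [hb]; ring
    rw [e, e, P t ht, symE N t (by omega)]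
    ring
  intro m hm
  have := uniq N b hb0 hbS hbP m hm
  simp only [hb] at this
  linarith

/-- `C(-1-t+m, m) = (-1)^m C(t,m)` for integers. -/
theorem choose_neg_cast (t m : ℕ) (x : ℤ) (hx : x = -1 - (t:ℤ) + m) :
    ((Ring.choose x m : ℤ) : ℚ) = (-1)^m * (t.choose m : ℚ) := by
  have h := Ring.choose_neg (R := ℤ) (-x) m
  rw [neg_neg, show -x + (m:ℤ) - 1 = ((t:ℕ):ℤ) by rw [hx]; ring, Ring.choose_natCast] at h
  rw [h, Int.negOnePow_def, zpow_natCast, Units.smul_def]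
  push_cast
  simp

/-- The statement asked for. -/
theorem refined (N : ℕ) (a : ℕ → ℚ) (S : ∀ m ≤ N, a m = a (N - m))
    (P : ∀ x : ℤ, ∑ m ∈ range (N+1), a m * ((Ring.choose (-x - 2*((N:ℤ)+1) + m) m : ℤ) : ℚ)
      = (-1)^N * ∑ m ∈ range (N+1), a m * ((Ring.choose (x + m) m : ℤ) : ℚ)) :
    ∀ m ≤ N, a m * ((2*N).choose N : ℚ) = a 0 * ((N+m).choose N : ℚ) * ((2*N-m).choose N : ℚ) := by
  refine refined_nat N a S fun t ht => ?_
  have h := P (-1 - (t:ℤ))
  have e1 : ∀ m : ℕ, ((Ring.choose (-(-1 - (t:ℤ)) - 2*((N:ℤ)+1) + m) m : ℤ) : ℚ) = (-1)^m * ((2*N-t).choose m : ℚ) := by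
    intro m
    refine choose_neg_cast (2*N-t) m _ ?_
    have : ((2*N - t : ℕ) : ℤ) = 2*(N:ℤ) - t := by
      rw [Nat.cast_sub (by omega)]; push_cast; ring
    rw [this]; ring
  have e2 : ∀ m : ℕ, ((Ring.choose (-1 - (t:ℤ) + m) m : ℤ) : ℚ) = (-1)^m * (t.choose m : ℚ) :=
    fun m => choose_neg_cast t m _ rfl
  simp only [e1, e2] at h
  have e3 : ∀ f : ℕ → ℚ, ∑ m ∈ range (N+1), (-1 : ℚ)^m * f m * a m = ∑ m ∈ range (N+1), a m * ((-1)^m * f m) :=
    fun f => Finset.sum_congr rfl fun m _ => by ring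
  rw [e3 (fun m => ((2*N-t).choose m : ℚ)), e3 (fun m => (t.choose m : ℚ))]
  exact h

end Pool.Agent.X83.MT
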